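import Mathlib

/-!
# Iterated left Quillen negations of classes of continuous maps
-/

open CategoryTheory MorphismProperty Topology Set

universe u

namespace Q16.Quillen

/-- Injective continuous maps. -/
def Inj : MorphismProperty TopCat.{u} := fun _ _ f => Function.Injective f

/-- Split epimorphisms. -/
def SE : MorphismProperty TopCat.{u} := fun A B f => ∃ s : B ⟶ A, s ≫ f = 𝟙 B

/-- Maps whose image meets every nonempty clopen set. -/
def MC : MorphismProperty TopCat.{u} := fun _ B f =>
  ∀ U : Set B, IsClopen U → U.Nonempty → (U ∩ range f).Nonempty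

/-- The indiscrete two-point space. -/
def ind2 : TopCat.{u} := @TopCat.of (ULift.{u} Bool) ⊤

/-- The point. -/
def pt : TopCat.{u} := TopCat.of PUnit.{u + 1}

theorem continuous_to_ind2 {A : TopCat.{u}} (f : A → ULift.{u} Bool) :
    @Continuous A (ULift.{u} Bool) _ ⊤ f := continuous_top

/-- Any map to the indiscrete space. -/
def toInd2 {A : TopCat.{u}} (f : A → ULift.{u} Bool) : A ⟶ ind2 :=
  @TopCat.ofHom A (ULift.{u} Bool) _ ⊤ (@ContinuousMap.mk A (ULift.{u} Bool) _ ⊤ f continuous_top)

theorem toInd2_apply {A : TopCat.{u}} (f : A → ULift.{u} Bool) (a : A) :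
    (toInd2 f) a = f a := rfl

def toPt (A : TopCat.{u}) : A ⟶ pt := TopCat.ofHom ⟨fun _ => PUnit.unit, continuous_const⟩

/-- constant map from a point -/
def fromPt {A : TopCat.{u}} (a : A) : pt ⟶ A := TopCat.ofHom ⟨fun _ => a, continuous_const⟩

theorem comp_apply' {A B C : TopCat.{u}} (f : A ⟶ B) (g : B ⟶ C) (a : A) : (f ≫ g) a = g (f a) :=
  rfl

/-- If a left negation contains a non-injective map, it contains `ind2 ⟶ pt`. -/
theorem ind2_mem (P : MorphismProperty TopCat.{u}) {A B : TopCat.{u}} (f : A ⟶ B) (hf : P.llp f)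
    (hn : ¬ Function.Injective f) : P.llp (toPt ind2) := by
  intro X Y g hg
  constructor
  intro p v sq
  -- the two values of p agree
  let x0 : X := p (ULift.up false)
  let x1 : X := p (ULift.up true)
  have hx : x0 = x1 := by
    classical
    simp only [Function.Injective, not_forall] at hn
    obtain ⟨a, a', hfa, hne⟩ := hn
    let χ : A ⟶ ind2 := toInd2 (fun c => ULift.up (if c = a then false else true))
    have hl := hf g hg
    have hsq : CommSq (χ ≫ p) f g (toPt B ≫ v) := by
      constructor
      rw [Category.assoc, sq.w]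
      rfl
    let ℓ := hsq.lift
    have h1 : ∀ c, ℓ (f c) = p (χ c) := fun c => by
      have := hsq.fac_left
      exact congrArg (fun k : A ⟶ X => k c) this
    have e1 := h1 a
    have e2 := h1 a'
    rw [hfa] at e1
    have e3 := e1.symm.trans e2
    have c1 : χ a = ULift.up false := by
      change ULift.up (if a = a then false else true) = _
      simp
    have c2 : χ a' = ULift.up true := by
      change ULift.up (if a' = a then false else true) = _
      rw [if_neg (Ne.symm hne)]
    rw [c1, c2] at e3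
    exact e3
  refine ⟨⟨⟨fromPt x0, ?_, ?_⟩⟩⟩
  · ext b
    rcases b with ⟨b⟩
    change x0 = p (ULift.up b)
    cases b
    · rfl
    · exact hx
  · ext b
    have := congrArg (fun k : ind2 ⟶ Y => k (ULift.up false)) sq.w
    exact this

theorem inj_of_ind2 {A B : TopCat.{u}} (f : A ⟶ B) (h : HasLiftingProperty f (toPt ind2)) :
    Function.Injective f := by
  classical
  intro a a' haa
  by_contra hne
  let χ : A ⟶ ind2 := toInd2 (fun c => ULift.up (if c = a then false else true))
  have hsq : CommSq χ f (toPt ind2) (toPt B) := ⟨rfl⟩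
  have h1 : ∀ c, hsq.lift (f c) = χ c := fun c =>
    congrArg (fun k : A ⟶ ind2 => k c) hsq.fac_left
  have e1 := h1 a
  have e2 := h1 a'
  rw [haa] at e1
  have e3 := e1.symm.trans e2
  have c1 : χ a = ULift.up false := by
    change ULift.up (if a = a then false else true) = _
    simp
  have c2 : χ a' = ULift.up true := by
    change ULift.up (if a' = a then false else true) = _
    rw [if_neg (Ne.symm hne)]
  rw [c1, c2] at e3
  exact absurd (congrArg ULift.down e3) (by simp)

/-- Dichotomy. -/
theorem dichotomy (P : MorphismProperty TopCat.{u}) : P.llp ≤ Inj ∨ P.llp.llp ≤ Inj := by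
  by_cases h : P.llp ≤ Inj
  · exact Or.inl h
  · right
    have h2 : ∃ (A B : TopCat.{u}) (f : A ⟶ B), P.llp f ∧ ¬ Function.Injective f := by
      by_contra hn
      push Not at hn
      exact h fun A B f hf => hn A B f hf
    obtain ⟨A, B, f, hf, hn⟩ := h2
    intro C D g hg
    exact inj_of_ind2 g (hg _ (ind2_mem P f hf hn))

theorem SE_le : SE ≤ (Inj.{u}).llp := by
  rintro A B f ⟨s, hs⟩ X Y g hg
  constructor
  intro p v sq
  refine ⟨⟨⟨s ≫ p, ?_, ?_⟩⟩⟩
  · ext a
    apply hg
    have h1 : ∀ c, g (p c) = v (f c) := fun c => congrArg (fun k : A ⟶ Y => k c) sq.w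
    have h2 : ∀ b, f (s b) = b := fun b => congrArg (fun k : B ⟶ B => k b) hs
    change g (p (s (f a))) = g (p a)
    rw [h1, h1, h2]
  · rw [Category.assoc, sq.w, ← Category.assoc, hs, Category.id_comp]

theorem MC_le : MC ≤ (SE.{u}).llp.llp := by
  intro A B f hf X Y g hg
  constructor
  intro p v sq
  -- g lifts against the split epimorphism (g, id) : X ⊕ Y ⟶ Y
  let S : TopCat.{u} := TopCat.of (X ⊕ Y)
  let q : S ⟶ Y := TopCat.ofHom ⟨Sum.elim g id, by fun_prop⟩
  let inr : Y ⟶ S := TopCat.ofHom ⟨Sum.inr, continuous_inr⟩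
  let inl : X ⟶ S := TopCat.ofHom ⟨Sum.inl, continuous_inl⟩
  have hq : SE q := ⟨inr, rfl⟩
  have hsq : CommSq inl g q (𝟙 Y) := ⟨rfl⟩
  have hl := hg q hq
  let h : Y ⟶ S := hsq.lift
  have h1 : ∀ x, h (g x) = Sum.inl x := fun x =>
    congrArg (fun k : X ⟶ S => k x) hsq.fac_left
  have h2 : ∀ y, q (h y) = y := fun y =>
    congrArg (fun k : Y ⟶ Y => k y) hsq.fac_right
  have h3 : ∀ a, g (p a) = v (f a) := fun a => congrArg (fun k : A ⟶ Y => k a) sq.w
  have hvc : Continuous (fun b : B => (h (v b) : X ⊕ Y)) := (v ≫ h).hom.continuous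
  have hall : ∀ b : B, ∃ x : X, (h (v b) : X ⊕ Y) = Sum.inl x := by
    by_contra hn
    push Not at hn
    obtain ⟨b, hb⟩ := hn
    have hU : IsClopen ((fun b : B => (h (v b) : X ⊕ Y)) ⁻¹' range Sum.inr) :=
      ⟨(isClosed_range_inr).preimage hvc, (isOpen_range_inr).preimage hvc⟩
    have hbU : b ∈ ((fun b : B => (h (v b) : X ⊕ Y)) ⁻¹' range Sum.inr) := by
      rcases hc : (h (v b) : X ⊕ Y) with x | y
      · exact absurd hc (hb x)
      · exact ⟨y, hc.symm⟩
    obtain ⟨c, ⟨y, hy⟩, a, rfl⟩ := hf _ hU ⟨b, hbU⟩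
    have h4 : (Sum.inr y : X ⊕ Y) = h (v (f a)) := hy
    rw [← h3, h1] at h4
    cases h4
  choose ℓ hℓ using hall
  have hℓc : Continuous ℓ := by
    rw [(IsEmbedding.inl (X := X) (Y := Y)).continuous_iff]
    have : Sum.inl ∘ ℓ = (fun b : B => (h (v b) : X ⊕ Y)) := by
      funext b
      exact (hℓ b).symm
    rw [this]
    exact hvc
  refine ⟨⟨⟨TopCat.ofHom ⟨ℓ, hℓc⟩, ?_, ?_⟩⟩⟩
  · ext a
    change ℓ (f a) = p a
    have h5 := hℓ (f a)
    rw [← h3, h1] at h5
    exact (Sum.inl_injective h5).symm
  · ext b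
    change g (ℓ b) = v b
    have h5 := h2 (v b)
    rw [hℓ b] at h5
    exact h5

theorem isIso_of_self {A B : TopCat.{u}} (f : A ⟶ B) (h : HasLiftingProperty f f) : IsIso f := by
  have hsq : CommSq (𝟙 A) f f (𝟙 B) := ⟨by simp⟩
  exact ⟨hsq.lift, hsq.fac_left, hsq.fac_right⟩

theorem MC_llp_le : (MC.{u}).llp ≤ MorphismProperty.isomorphisms TopCat.{u} := by
  intro A B f hf
  have hmem : MC (fromPt (A := ind2.{u}) (ULift.up false)) := by
    intro U hU hne
    have : U = ∅ ∨ U = univ := by
      have ho := hU.2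
      exact (@TopologicalSpace.isOpen_top_iff (ULift.{u} Bool) U).1 ho
    rcases this with rfl | rfl
    · exact absurd hne (by simp)
    · exact ⟨ULift.up false, trivial, PUnit.unit, rfl⟩
  have hsurj : Function.Surjective f := by
    classical
    intro b
    by_contra hb
    have hl := hf _ hmem
    let v : B ⟶ ind2 := toInd2 (fun c => ULift.up (if c = b then true else false))
    have hsq : CommSq (toPt A) f (fromPt (A := ind2.{u}) (ULift.up false)) v := by
      constructor
      ext a
      change ULift.up false = ULift.up (if f a = b then true else false)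
      rw [if_neg]
      intro h
      exact hb ⟨a, h⟩
    have h1 := congrArg (fun k : B ⟶ ind2 => k b) hsq.fac_right
    have h2 : v b = ULift.up false := h1.symm
    have h3 : v b = ULift.up true := by
      change ULift.up (if b = b then true else false) = _
      simp
    rw [h2] at h3
    exact absurd (congrArg ULift.down h3) (by simp)
  have hfMC : MC f := by
    intro U _ hne
    obtain ⟨b, hb⟩ := hne
    obtain ⟨a, rfl⟩ := hsurj b
    exact ⟨f a, hb, a, rfl⟩
  exact isIso_of_self f (hf f hfMC)

theorem iso_le_llp (P : MorphismProperty TopCat.{u}) :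
    MorphismProperty.isomorphisms TopCat.{u} ≤ P.llp := by
  intro A B f hf
  have : IsIso f := hf
  exact llp_of_isIso P f

theorem iso_llp : (MorphismProperty.isomorphisms TopCat.{u}).llp = ⊤ := by
  apply le_antisymm le_top
  intro A B f _ X Y g hg
  have : IsIso g := hg
  infer_instance

theorem top_llp : (⊤ : MorphismProperty TopCat.{u}).llp = MorphismProperty.isomorphisms TopCat.{u} := by
  apply le_antisymm
  · intro A B f hf
    exact isIso_of_self f (hf f trivial)
  · exact iso_le_llp _

/-- If `Q ≤ Inj`, the fourth iterated left negation is the class of isomorphisms. -/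
theorem four_of_inj (Q : MorphismProperty TopCat.{u}) (h : Q ≤ Inj) :
    Q.llp.llp.llp.llp = MorphismProperty.isomorphisms TopCat.{u} := by
  have h1 : Q.llp.llp ≤ SE.llp := antitone_llp (SE_le.trans (antitone_llp h))
  have h2 : MC ≤ Q.llp.llp.llp := MC_le.trans (antitone_llp h1)
  exact le_antisymm ((antitone_llp h2).trans MC_llp_le) (iso_le_llp _)

theorem eight_eq_six (P : MorphismProperty TopCat.{u}) :
    P.llp.llp.llp.llp.llp.llp.llp.llp = P.llp.llp.llp.llp.llp.llp := by
  rcases dichotomy P with h | h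
  · have h5 := four_of_inj P.llp h
    rw [h5, iso_llp, top_llp, iso_llp]
  · have h6 := four_of_inj P.llp.llp h
    rw [h6, iso_llp, top_llp]

end Q16.Quillen
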